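import Pool.Agent.AAP.CritHalf

/-!
# Even two-dimensional Galois representations: a criterion with two generalized Bernoulli numbers

Let `p` be an odd prime and let `V` be an even two-dimensional `p`-adic representation of the
absolute Galois group of `ℚ` with reducible reduction `ω ^ j ⊗ (α ⊕ β ω ^ n)`, not a sum of two
copies of one character. If the generalized Bernoulli number `B_{n, β/α}` or `B_{n', α/β}`,
`n' ≡ -n mod p - 1`, is a `p`-adic unit, and `V` is tame at the primes where the corresponding
extension could ramify, then `V` is reducible. In level one this applies, for every prime `p ≥ 5`,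
to more than half of the even `n` between `2` and `p - 3`.
-/

namespace Pool.Agent.Results.MP_b583a4_nt.BernoulliCriterion

open Pool.Agent.AAP

theorem result (p : ℕ) [Fact p.Prime] (hp : p ≠ 2) :
    (∀ (N n n' : ℕ) [NeZero N], ¬ p ∣ N → 1 ≤ n → n < p → 1 ≤ n' → n' < p → p - 1 ∣ n + n' →
      ∀ {E : Type} [NormedField E] [IsUltrametricDist E] [CompleteSpace E] [NormedAlgebra ℚ_[p] E]
        (V : Gam →* GL2 E) (α β : (ZMod N)ˣ →* Eˣ) (j : ℕ), Continuous V → Even2 V →
        SumType p n N α β j V → ¬ (n = p - 1 ∧ ∀ a, Equ (α a : E) (β a)) →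
        BernoulliUnit p n N α β V ∨ BernoulliUnit p n' N β α V → Line V) ∧
    (5 ≤ p → ∃ S : Finset ℕ, p < 4 * S.card + 3 ∧
      ∀ n ∈ S, Even n ∧ 2 ≤ n ∧ n + 3 ≤ p ∧ AllReducible p n) :=
  ⟨fun N n n' _ hpN hn hnp hn' hnp' hnn _ _ _ _ _ V α β j hV heven h hns hB =>
    critMain p N n n' hp hpN hn hnp hn' hnp' hnn V hV heven α β j h hns hB, halfMain p⟩

end Pool.Agent.Results.MP_b583a4_nt.BernoulliCriterion
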