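import Mathlib
import Pool.Agent.ADC.Fin

/-!
# The almost distributive varieties of rings whose exponent is a power of a prime `p ≥ 5`

Rings are associative and need not have an identity; they are Mathlib's `NonUnitalRing`s.
-/

namespace Pool.Agent.Results.MP_cf90cc_al.PrimePowerExponent

/-- Polynomials with integer coefficients in the noncommuting variables `x_0, x_1, x_2, ...`. -/
abbrev Poly := FreeAlgebra ℤ ℕ

/-- The variable `x_i`. -/
noncomputable def x (i : ℕ) : Poly := FreeAlgebra.ι ℤ i

/-- The word with the letters `x_i`, `i ∈ w`, in the order of the list `w`. -/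
noncomputable def word (w : List ℕ) : Poly := (w.map x).prod

/-- The coefficient of the word `w` in the polynomial `f`. -/
noncomputable def coefficient (w : List ℕ) (f : Poly) : ℤ :=
  (FreeAlgebra.equivMonoidAlgebraFreeMonoid f).coeff (FreeMonoid.ofList w)

/-- The constant term of a polynomial. -/
noncomputable def constantTerm : Poly →ₐ[ℤ] ℤ := FreeAlgebra.lift ℤ (fun _ => 0)

/-- The polynomials without constant term; only these are used as identities of rings without
identity element. -/
def ConstantFree : Set Poly := {f | constantTerm f = 0}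

/-- The linear combinations of words of length at least `n`. -/
def LengthAtLeast (n : ℕ) : Set Poly := Submodule.span ℤ {f | ∃ w : List ℕ, n ≤ w.length ∧ f = word w}

/-- A ring: a type with the structure of an associative ring, not necessarily with identity. -/
abbrev RingObj := Σ R : Type, NonUnitalRing R

/-- The ring `R` satisfies the identity `f = 0`: for all elements `a_0, a_1, ...` of `R` the value
`f(a_0, a_1, ...)` is zero.  The value is computed in `Unitization ℤ R = ℤ ⊕ R`, the ring obtained
from `R` by adjoining an identity element; for `f` without constant term it lies in `R`. -/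
def Satisfies (R : RingObj) (f : Poly) : Prop :=
  letI : NonUnitalRing R.1 := R.2
  ∀ a : ℕ → R.1, FreeAlgebra.lift ℤ (fun i => ((a i : R.1) : Unitization ℤ R.1)) f = 0

/-- The class of all rings satisfying all identities in `S`. -/
def Mod (S : Set Poly) : Set RingObj := {R | ∀ f ∈ S, Satisfies R f}

/-- The identities (without constant term) satisfied by all rings in the class `K`. -/
def Identities (K : Set RingObj) : Set Poly := {f | f ∈ ConstantFree ∧ ∀ R ∈ K, Satisfies R f}

/-- A variety of rings: the class of all rings satisfying some set of polynomial identities. -/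
def IsVariety (K : Set RingObj) : Prop := ∃ S : Set Poly, S ⊆ ConstantFree ∧ K = Mod S

/-- The join of two varieties: the smallest variety containing both, i.e. the class of all rings
satisfying the common identities of both. -/
def join (K K' : Set RingObj) : Set RingObj := Mod (Identities (K ∪ K'))

/-- The lattice `L(V)` of subvarieties of `V` (meet = intersection) is distributive. -/
def DistributiveLattice (V : Set RingObj) : Prop :=
  ∀ A B C : Set RingObj, IsVariety A → IsVariety B → IsVariety C → A ⊆ V → B ⊆ V → C ⊆ V →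
    A ∩ join B C = join (A ∩ B) (A ∩ C)

/-- `V` is an almost distributive variety of rings: `L(V)` is not distributive, but `L(W)` is
distributive for every variety `W` properly contained in `V`. -/
def AlmostDistributive (V : Set RingObj) : Prop :=
  IsVariety V ∧ ¬ DistributiveLattice V ∧
    ∀ W, IsVariety W → W ⊂ V → DistributiveLattice W

/-- The variety `U_p`: `p² x = 0`, `p x y = 0`, `x y = y x`, `x_0 x_1 ⋯ x_p = 0`. -/
def U (p : ℕ) : Set RingObj :=
  Mod {(p : ℤ) ^ 2 • x 0, (p : ℤ) • (x 0 * x 1), x 0 * x 1 - x 1 * x 0, word (List.range (p + 1))}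

/-- The variety `W_p`: `p x = 0`, `x y z + y z x + z x y = 0`, `x y z t = 0`. -/
def W (p : ℕ) : Set RingObj :=
  Mod {(p : ℤ) • x 0, x 0 * x 1 * x 2 + x 1 * x 2 * x 0 + x 2 * x 0 * x 1, word (List.range 4)}

/-- The variety `N_p`: `p x = 0`, `x [y, z] = 0`, `[x, y] z = 0`, `x^p y + x y^p = 0`,
`x_0 x_1 ⋯ x_(p+1) = 0`. -/
def N (p : ℕ) : Set RingObj :=
  Mod {(p : ℤ) • x 0, x 0 * (x 1 * x 2 - x 2 * x 1), (x 0 * x 1 - x 1 * x 0) * x 2,
    x 0 ^ p * x 1 + x 0 * x 1 ^ p, word (List.range (p + 2))}

/-- `1` if the letter `a` stands before the letter `b` in the word `w`, otherwise `-1`. -/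
def before (w : List ℕ) (a b : ℕ) : ℤ := if w.idxOf a < w.idxOf b then 1 else -1

/-- The sign of the order in which the letters of the list `L` occur in the word `w`: the product
of `before w a b` over all pairs `a`, `b` of entries of `L`, `a` preceding `b` in `L`. -/
def orderSign (w : List ℕ) : List ℕ → ℤ
  | [] => 1
  | a :: L => (L.map (fun b => before w a b)).prod * orderSign w L

/-- The word `x_(τ 0) x_(τ 1) ⋯ x_(τ (p-1))`, as a list of indices. -/
def arrangement (p : ℕ) (τ : Equiv.Perm (Fin p)) : List ℕ := List.ofFn (fun i => (τ i : ℕ))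

/-- `A_k(g)`: the sum over all words `w` in which each of `x_0, ..., x_(p-1)` occurs exactly once
(and no other letter) of the coefficient of `w` in `g`, multiplied by the sign of the order in which
the letters `x_0, ..., x_(k-1)` occur in `w`. -/
noncomputable def A (p k : ℕ) (g : Poly) : ℤ :=
  ∑ τ : Equiv.Perm (Fin p), coefficient (arrangement p τ) g * orderSign (arrangement p τ) (List.range k)

/-- `B_k(g)`: the same with the sum over `s = k, ..., p-1` of the signs of the orders in which the
letters `x_0, ..., x_(k-1), x_s` occur in `w`. -/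
noncomputable def B (p k : ℕ) (g : Poly) : ℤ :=
  ∑ τ : Equiv.Perm (Fin p), coefficient (arrangement p τ) g *
    ∑ s ∈ Finset.Ico k p, orderSign (arrangement p τ) (List.range k ++ [s])

/-- The identities of `G_(p,k)`: the polynomials `f` without constant term such that for all
consequences `g = u f(φ_0, φ_1, ...) v` of `f` the number `A_k(g)` is divisible by `p` and `B_k(g)` is
divisible by `p` (if `k` is odd) or by `p²` (if `k` is even). -/
def IdentitiesG (p k : ℕ) : Set Poly :=
  {f | constantTerm f = 0 ∧ ∀ φ : Poly →ₐ[ℤ] Poly, (∀ i, constantTerm (φ (x i)) = 0) → ∀ u v : Poly,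
    (p : ℤ) ∣ A p k (u * φ f * v) ∧ (p : ℤ) ^ (2 - k % 2) ∣ B p k (u * φ f * v)}

/-- The variety `G_(p,k)`. -/
def G (p k : ℕ) : Set RingObj := Mod (IdentitiesG p k)

/-- The list `U_p`, `W_p`, `N_p`, `G_(p,1)`, ..., `G_(p,p-1)`. -/
def Listed (p : ℕ) : Set (Set RingObj) :=
  {V | V = U p ∨ V = W p ∨ V = N p ∨ ∃ k, 1 ≤ k ∧ k < p ∧ V = G p k}

/-- The exceptional case: `V` satisfies `p x = 0` and `[x, y] = h` for a linear combination `h` of
words of length at least `p + 1`, but not `x_0 x_1 ⋯ x_p = 0`. -/
def Exceptional (p : ℕ) (V : Set RingObj) : Prop :=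
  (∀ R ∈ V, Satisfies R ((p : ℤ) • x 0)) ∧
    (∃ h ∈ LengthAtLeast (p + 1), ∀ R ∈ V, Satisfies R (x 0 * x 1 - x 1 * x 0 - h)) ∧
    ¬ ∀ R ∈ V, Satisfies R (word (List.range (p + 1)))

private theorem order_eq (w L : List ℕ) : orderSign w L = ADC.sgl w L := by
  induction L with
  | nil => rfl
  | cons a L ih =>
    show (L.map (fun b => before w a b)).prod * orderSign w L = (L.map (fun b => ADC.bef w a b)).prod * ADC.sgl w L
    rw [ih]
    rfl

private theorem A_eq (p k : ℕ) (g : Poly) : A p k g = ADC.fA p k g :=
  Finset.sum_congr rfl fun τ _ => by rw [order_eq]; rfl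

private theorem B_eq (p k : ℕ) (g : Poly) : B p k g = ADC.fB p k g := by
  refine Finset.sum_congr rfl fun τ _ => ?_
  have h : ∀ s, orderSign (arrangement p τ) (List.range k ++ [s]) = ADC.sgl (ADC.arr p τ) (List.range k ++ [s]) :=
    fun s => order_eq _ _
  simp only [h]
  rfl

private theorem G_eq (p k : ℕ) : G p k = ADC.VG p k := by
  have h : IdentitiesG p k = ADC.GId p k := by
    ext f
    constructor
    · rintro ⟨h1, h2⟩
      refine ⟨h1, fun φ hφ u v => ?_⟩
      rw [← A_eq, ← B_eq]
      exact h2 φ hφ u v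
    · rintro ⟨h1, h2⟩
      refine ⟨h1, fun φ hφ u v => ?_⟩
      rw [A_eq, B_eq]
      exact h2 φ hφ u v
  unfold G ADC.VG
  rw [h]
  rfl

private theorem U_eq (p : ℕ) : U p = ADC.VU p := rfl

private theorem W_eq (p : ℕ) : W p = ADC.VW p := rfl

private theorem N_eq (p : ℕ) : N p = ADC.VN p := rfl

private theorem L_eq (p : ℕ) : Listed p = ADC.VL p := by
  ext V
  show (V = U p ∨ V = W p ∨ V = N p ∨ ∃ k, 1 ≤ k ∧ k < p ∧ V = G p k) ↔
    (V = ADC.VU p ∨ V = ADC.VW p ∨ V = ADC.VN p ∨ ∃ k, 1 ≤ k ∧ k < p ∧ V = ADC.VG p k)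
  rw [U_eq, W_eq, N_eq]
  simp only [G_eq]

private theorem E_eq (p : ℕ) (V : Set RingObj) : Exceptional p V ↔ ADC.Exc p V := Iff.rfl

/-- **Theorem.**  Let `p ≥ 5` be a prime.  The almost distributive varieties of rings satisfying
`p^n x = 0` for some `n`, apart from exceptional ones, are exactly the `p + 2` varieties `U_p`, `W_p`,
`N_p` and `G_(p,k)`, `1 ≤ k ≤ p - 1`. -/
theorem result (p : ℕ) (hp : p.Prime) (h5 : 5 ≤ p) :
    (∀ V : Set RingObj, V ∈ Listed p ↔
      AlmostDistributive V ∧ (∃ n : ℕ, ∀ R ∈ V, Satisfies R (((p ^ n : ℕ) : ℤ) • x 0)) ∧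
        ¬ Exceptional p V) ∧
    (Listed p).ncard = p + 2 := by
  rw [L_eq]
  exact ⟨fun V => ADC.VL_main hp h5 V, ADC.VL_card hp h5⟩

end Pool.Agent.Results.MP_cf90cc_al.PrimePowerExponent
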